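import Pool.Agent.H9.FC.TB

/-! Module AMA: amalgamation and lifting of `Dec`. -/

namespace Pool.Agent.H59.FC

open Set Pool.Agent.H9.FC

theorem pf_AMA (hBAS : T_BAS) : T_AMA := by
  intro p Ω _ _
  obtain ⟨hmono, hdep, hsat, -, hatom⟩ := hBAS p Ω
  have h1 : ∀ δ : Ω, ∀ (γ : Ω) (V W : Set (Pt Ω)), γ ≤ δ → V ∈ PP p γ → W ∈ PP p δ →
      V ⊆ sat γ W → V ∩ W ∈ PP p δ := by
    intro δ
    induction δ using WellFoundedLT.induction with
    | ind δ ih =>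
      intro γ V W hγδ hV hW hVW
      have hVδ : V ∈ PP p δ := hmono γ δ hγδ hV
      rcases (mem_PP p δ W).1 hW with rfl | ⟨ε, hε, W0, hW0, s, l, φ, hs, hl, hφ, rfl⟩
      · rwa [inter_univ]
      · rcases lt_or_ge ε γ with hεγ | hγε
        · have hWγ : W0 ∩ atom ε s φ ∈ PP p γ :=
            (mem_PP p γ _).2 (Or.inr ⟨ε, hεγ, W0, hW0, s, l, φ, hs, hl, hφ, rfl⟩)
          have hsub : V ⊆ W0 ∩ atom ε s φ := by
            intro x hx
            obtain ⟨x', hx', hxx'⟩ := hVW hx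
            exact hdep γ _ hWγ x' x hx' (fun δ hδ => (hxx' δ hδ).symm)
          rwa [inter_eq_left.2 hsub]
        · have hVW0 : V ⊆ sat γ W0 := by
            rw [← hatom γ ε W0 s φ hγε hW0 hφ.2.1]
            exact hVW
          have h2 := ih ε hε γ V W0 hγε hV hW0 hVW0
          rw [← inter_assoc]
          exact (mem_PP p δ _).2 (Or.inr ⟨ε, hε, _, h2, s, l, φ, hs, hl, hφ, rfl⟩)
  refine ⟨fun γ δ V W => h1 δ γ V W, ?_⟩
  intro γ δ α f hγδ _ hdec U hU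
  obtain ⟨V, hV, hVU, c, hc⟩ := hdec _ (hsat γ δ U hU)
  exact ⟨V ∩ U, h1 δ γ V U hγδ hV hU hVU, inter_subset_right, c, fun x hx => hc x hx.1⟩

end Pool.Agent.H59.FC
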