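import Pool.Agent.H89.FC.Targets

/-!
# The bound of the Epstein zeta functions with angular factors and complex parameters
-/

set_option autoImplicit false

namespace Pool.Agent.H59.FC

open MeasureTheory Set Filter
open Pool.Agent.H31.CN Pool.Agent.H89.FM Pool.Agent.H89.FC
open scoped Real Matrix MatrixGroups

theorem cG_nonneg (m : ℕ) (t : ℝ) : 0 ≤ cG m t := by
  unfold cG
  positivity

open Classical in
theorem pf_ECBm (hKCB : T_KCBm) (hQCB : T_QCB) (hLSM : T_LSM) (hANB : T_ANB) : T_ECBm := by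
  intro κ hκ hκ8
  obtain ⟨C₁, k, hC₁, h1⟩ := hKCB
  obtain ⟨c, C₀, hc, hc1, hC₀, h2⟩ := hQCB
  obtain ⟨C₂, hC₂, h3⟩ := hLSM κ hκ hκ8
  refine ⟨3 * (C₁ * C₂) / c ^ 2, k + 1, by positivity, ?_⟩
  intro ρ m n L s x y hρ hn hL hs hR
  have hn' : (0 : ℝ) < n := by exact_mod_cast hn
  have hM : ((m.natAbs : ℕ) : ℝ) = |(m : ℝ)| := by rw [Nat.cast_natAbs, Int.cast_abs]
  have hM0 : 0 ≤ |(m : ℝ)| := abs_nonneg _
  have hta : |(|s.im| + |(m : ℝ)|)| = |s.im| + |(m : ℝ)| :=
    abs_of_nonneg (by positivity)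
  have hcG : 0 ≤ cG m.natAbs s.im := cG_nonneg _ _
  have hT0 : 1 ≤ 1 + |s.im| + |(m : ℝ)| := by linarith [abs_nonneg s.im]
  have hT0' : 0 < 1 + |s.im| + |(m : ℝ)| := by linarith
  set T : ℝ := (1 + |s.im| + |(m : ℝ)|) / c with hT
  have hT1 : 1 ≤ T := by
    rw [hT, le_div_iff₀ hc]
    linarith
  obtain ⟨hsum, hle⟩ := h3 ρ T n L hρ hT1 hn hL
  set g : ℤ × ℤ → ℝ := fun v => if v ∈ L ∧ v ≠ 0 then
      (nr ρ v / n) ^ (-(1 / 2 + κ)) * Real.exp (-(nr ρ v / (n * T))) else 0 with hg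
  set K : ℝ := 3 * (C₁ * (1 + |s.im| + |(m : ℝ)|) ^ k * cG m.natAbs s.im * c⁻¹) with hK
  have hK0 : 0 ≤ K := by positivity
  have hb : ∀ v : ℤ × ℤ, ‖(if v ∈ L ∧ v ≠ 0 then
      an x y v ^ m * Kmc m.natAbs (tum m.natAbs s.im) s (qc x y v / n) else 0 : ℂ)‖ ≤
      K * g v := by
    intro v
    by_cases hv : v ∈ L ∧ v ≠ 0
    · rw [hg]
      simp only [if_pos hv]
      obtain ⟨q1, q2, q3, q4⟩ := h2 ρ (|s.im| + |(m : ℝ)|) x y v hρ hR hv.2
      rw [hta, ← add_assoc] at q2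
      have ha := (hANB ρ s.im m x y v hρ hR hv.2).2.2.1
      have hre : (qc x y v / n).re = (qc x y v).re / n := Complex.div_natCast_re _ _
      have him : (qc x y v / n).im = (qc x y v).im / n := Complex.div_natCast_im _ _
      have hr0 : 0 < (qc x y v / n).re := by
        rw [hre]
        exact div_pos q1 hn'
      have hri : 10 * (1 + |s.im| + ((m.natAbs : ℕ) : ℝ)) * |(qc x y v / n).im| ≤
          (qc x y v / n).re := by
        rw [hM, hre, him, abs_div, abs_of_pos hn', ← mul_div_assoc]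
        exact div_le_div_of_nonneg_right q2 hn'.le
      have h4 := (h1 m.natAbs κ s (qc x y v / n) hκ.le hκ8 hs hr0 hri).2
      rw [hM] at h4
      have hnr : 0 < nr ρ v := by
        by_contra hneg
        push Not at hneg
        have : C₀ * nr ρ v ≤ 0 := mul_nonpos_of_nonneg_of_nonpos (by linarith) hneg
        linarith
      have hw : 0 < nr ρ v / n := div_pos hnr hn'
      have hcw : c * (nr ρ v / n) ≤ (qc x y v / n).re := by
        rw [hre, ← mul_div_assoc]
        exact div_le_div_of_nonneg_right q3 hn'.le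
      have h5 : (qc x y v / n).re ^ (-(1 / 2 + κ)) ≤ c⁻¹ * (nr ρ v / n) ^ (-(1 / 2 + κ)) := by
        calc (qc x y v / n).re ^ (-(1 / 2 + κ)) ≤ (c * (nr ρ v / n)) ^ (-(1 / 2 + κ)) :=
              Real.rpow_le_rpow_of_nonpos (by positivity) hcw (by linarith)
          _ = c ^ (-(1 / 2 + κ)) * (nr ρ v / n) ^ (-(1 / 2 + κ)) :=
              Real.mul_rpow hc.le hw.le
          _ ≤ c⁻¹ * (nr ρ v / n) ^ (-(1 / 2 + κ)) := by
              refine mul_le_mul_of_nonneg_right ?_ (Real.rpow_nonneg hw.le _)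
              rw [← Real.rpow_neg_one c]
              exact Real.rpow_le_rpow_of_exponent_ge hc hc1 (by linarith)
      have h6 : Real.exp (-((qc x y v / n).re / (1 + |s.im| + |(m : ℝ)|))) ≤
          Real.exp (-(nr ρ v / (n * T))) := by
        apply Real.exp_le_exp.2
        apply neg_le_neg
        have h7 : nr ρ v / (n * T) = c * (nr ρ v / n) / (1 + |s.im| + |(m : ℝ)|) := by
          rw [hT]
          field_simp
        rw [h7]
        exact div_le_div_of_nonneg_right hcw hT0'.le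
      have h8 : ‖Kmc m.natAbs (tum m.natAbs s.im) s (qc x y v / n)‖ ≤
          C₁ * (1 + |s.im| + |(m : ℝ)|) ^ k * cG m.natAbs s.im *
            (c⁻¹ * (nr ρ v / n) ^ (-(1 / 2 + κ))) * Real.exp (-(nr ρ v / (n * T))) := by
        refine h4.trans ?_
        refine mul_le_mul ?_ h6 (Real.exp_nonneg _) ?_
        · exact mul_le_mul_of_nonneg_left h5 (by positivity)
        · have := Real.rpow_nonneg hw.le (-(1 / 2 + κ))
          positivity
      calc ‖an x y v ^ m * Kmc m.natAbs (tum m.natAbs s.im) s (qc x y v / n)‖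
          = ‖an x y v ^ m‖ * ‖Kmc m.natAbs (tum m.natAbs s.im) s (qc x y v / n)‖ :=
            norm_mul _ _
        _ ≤ 3 * (C₁ * (1 + |s.im| + |(m : ℝ)|) ^ k * cG m.natAbs s.im *
            (c⁻¹ * (nr ρ v / n) ^ (-(1 / 2 + κ))) * Real.exp (-(nr ρ v / (n * T)))) :=
            mul_le_mul ha h8 (norm_nonneg _) (by norm_num)
        _ = K * ((nr ρ v / n) ^ (-(1 / 2 + κ)) * Real.exp (-(nr ρ v / (n * T)))) := by
            rw [hK]
            ring
    · rw [hg]
      simp only [if_neg hv]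
      simp
  have h8 : ‖Ecm m s n L x y‖ ≤ K * ∑' v, g v :=
    tsum_of_norm_bounded (hsum.hasSum.mul_left K) hb
  have hm : (0 : ℝ) ≤ (n / mn ρ L) ^ (1 / 2 + κ) := by
    have hmn : 0 ≤ mn ρ L := by
      unfold mn
      apply Real.sInf_nonneg
      rintro _ ⟨v, -, rfl⟩
      unfold nr
      positivity
    exact Real.rpow_nonneg (div_nonneg hn'.le hmn) _
  calc ‖Ecm m s n L x y‖ ≤ K * ∑' v, g v := h8
    _ ≤ K * (C₂ * T * (n / mn ρ L) ^ (1 / 2 + κ)) := mul_le_mul_of_nonneg_left hle hK0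
    _ = 3 * (C₁ * C₂) / c ^ 2 * (1 + |s.im| + |(m : ℝ)|) ^ (k + 1) * cG m.natAbs s.im *
        (n / mn ρ L) ^ (1 / 2 + κ) := by
        rw [hK, hT]
        generalize (n / mn ρ L) ^ (1 / 2 + κ) = A
        generalize cG m.natAbs s.im = E
        generalize 1 + |s.im| + |(m : ℝ)| = B
        have hc' : c ≠ 0 := hc.ne'
        field_simp
        ring

end Pool.Agent.H59.FC
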