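import Pool.Agent.H89.FC.Targets
import Pool.Agent.H95.FM.HEC

/-!
# The Hecke relation for the Epstein zeta functions with angular factors
-/

set_option autoImplicit false

open MeasureTheory Set Filter
open scoped Real Matrix MatrixGroups

namespace Pool.Agent.H59.FC

open Pool.Agent.H31.CN Pool.Agent.H89.FM Pool.Agent.H89.FC
open Pool.Agent.H95.FM (mem_of_mul sum_lattices qz_eq qz_smul)

/-! ### The terms -/

/-- the test function is bounded by a power -/
theorem phm_bound (m : ℕ) : ∃ C : ℝ, 0 ≤ C ∧ ∀ t : ℝ, 0 < t →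
    ‖phm m (t : ℂ)‖ ≤ C / (2 * π * t) ^ 2 := by
  have hpi : 0 < 2 * π := by positivity
  refine ⟨((m : ℝ) ^ 2 + m) * (m + 2).factorial + (2 * m + 2) * (m + 3).factorial +
    (m + 4).factorial, by positivity, ?_⟩
  intro t ht
  obtain ⟨X, hX⟩ : ∃ X : ℝ, X = 2 * π * t := ⟨_, rfl⟩
  have hX0 : 0 < X := by rw [hX]; positivity
  have ht1 : t ≤ X := by
    rw [hX]
    have : 1 ≤ 2 * π := by linarith [Real.pi_gt_three]
    nlinarith
  have h1 : phm m (t : ℂ) = (((((m : ℝ) - X) ^ 2 + m - 2 * X) * t ^ m * Real.exp (-X) : ℝ) : ℂ) := by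
    unfold phm
    rw [hX]
    push_cast
    ring_nf
  rw [h1, Complex.norm_real, Real.norm_eq_abs, abs_mul, abs_mul, abs_of_pos (Real.exp_pos _),
    abs_of_nonneg (by positivity : 0 ≤ t ^ m), ← hX]
  have h2 : |((m : ℝ) - X) ^ 2 + m - 2 * X| ≤ ((m : ℝ) ^ 2 + m) + (2 * m + 2) * X + X ^ 2 := by
    have hm : (0 : ℝ) ≤ m := Nat.cast_nonneg m
    rw [abs_le]
    constructor <;> nlinarith [mul_nonneg hm hX0.le]
  have h3 : t ^ m ≤ X ^ m := pow_le_pow_left₀ ht.le ht1 m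
  have hf : ∀ k : ℕ, X ^ k ≤ k.factorial * Real.exp X := by
    intro k
    have := Real.pow_div_factorial_le_exp X hX0.le k
    rw [div_le_iff₀ (by positivity)] at this
    linarith
  rw [le_div_iff₀ (by positivity), Real.exp_neg]
  have hE : 0 < Real.exp X := Real.exp_pos X
  have h4 : |((m : ℝ) - X) ^ 2 + m - 2 * X| * t ^ m * (Real.exp X)⁻¹ * X ^ 2 ≤
      (((m : ℝ) ^ 2 + m) + (2 * m + 2) * X + X ^ 2) * X ^ m * (Real.exp X)⁻¹ * X ^ 2 := by
    apply mul_le_mul_of_nonneg_right _ (by positivity)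
    apply mul_le_mul_of_nonneg_right _ (by positivity)
    exact mul_le_mul h2 h3 (by positivity) (by positivity)
  refine h4.trans ?_
  have h5 : (((m : ℝ) ^ 2 + m) + (2 * m + 2) * X + X ^ 2) * X ^ m * (Real.exp X)⁻¹ * X ^ 2 =
      (((m : ℝ) ^ 2 + m) * X ^ (m + 2) + (2 * m + 2) * X ^ (m + 3) + X ^ (m + 4)) /
        Real.exp X := by
    field_simp
    ring
  rw [h5, div_le_iff₀ hE]
  have e2 := mul_le_mul_of_nonneg_left (hf (m + 2)) (by positivity : (0 : ℝ) ≤ (m : ℝ) ^ 2 + m)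
  have e3 := mul_le_mul_of_nonneg_left (hf (m + 3)) (by positivity : (0 : ℝ) ≤ 2 * (m : ℝ) + 2)
  have e4 := hf (m + 4)
  calc ((m : ℝ) ^ 2 + m) * X ^ (m + 2) + (2 * m + 2) * X ^ (m + 3) + X ^ (m + 4)
      ≤ ((m : ℝ) ^ 2 + m) * ((m + 2).factorial * Real.exp X) +
        (2 * m + 2) * ((m + 3).factorial * Real.exp X) + (m + 4).factorial * Real.exp X :=
        add_le_add (add_le_add e2 e3) e4
    _ = _ := by ring

/-- the angular factor is a unit -/
theorem an_norm (m : ℤ) (x y : ℝ) (v : ℤ × ℤ) (hy : 0 < y) (hv : v ≠ 0) :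
    ‖an x y v ^ m‖ = 1 := by
  have h1 : ((v.1 : ℂ) + v.2 * ((x : ℂ) - y * Complex.I)) =
      (starRingEnd ℂ) ((v.1 : ℂ) + v.2 * ((x : ℂ) + y * Complex.I)) := by
    simp only [map_add, map_mul, Complex.conj_ofReal, Complex.conj_I, map_intCast]
    ring
  have h2 : (v.1 : ℂ) + v.2 * ((x : ℂ) + y * Complex.I) ≠ 0 := by
    intro h
    have him := congrArg Complex.im h
    have hre := congrArg Complex.re h
    simp at him hre
    rcases him with him | him
    · rw [him] at hre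
      simp at hre
      exact hv (Prod.ext hre him)
    · exact hy.ne' him
  unfold Pool.Agent.H89.FC.an
  rw [norm_zpow, norm_div, h1, Complex.norm_conj, div_self (norm_ne_zero_iff.2 h2), one_zpow]

/-- the angular factor is invariant under scaling -/
theorem an_smul (x y : ℂ) (k : ℤ) (hk : k ≠ 0) (v : ℤ × ℤ) : an x y (k • v) = an x y v := by
  unfold Pool.Agent.H89.FC.an
  have hk' : (k : ℂ) ≠ 0 := by exact_mod_cast hk
  simp only [Prod.smul_fst, Prod.smul_snd, smul_eq_mul]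
  push_cast
  rw [mul_assoc, ← mul_add, mul_assoc, ← mul_add, mul_div_mul_left _ _ hk']

open Classical in
theorem psm_summable (m : ℤ) (n : ℕ) (L : Pool.Agent.H89.FM.Lat) (x y u : ℝ) (hn : 1 ≤ n)
    (hy : 0 < y) (hu : 0 < u) : Summable (fun v => psm m n L x y u v) := by
  have hn' : (0 : ℝ) < n := by exact_mod_cast hn
  obtain ⟨C, hC, hph⟩ := phm_bound m.natAbs
  have h1 := Pool.Agent.H26.CN.EPS.summable_pow (A := 1 / (2 * y)) (B := x / y) (Δ := 1)
    (by positivity) one_pos (σ := 2) (by norm_num)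
  have h2 := h1.mul_left (C * (n / u) ^ 2)
  refine Summable.of_norm_bounded h2 fun v => ?_
  unfold psm
  by_cases hv : v ∈ L ∧ v ≠ 0
  · rw [if_pos hv, if_neg hv.2]
    have hq : 0 < qz x y v := by
      rw [qz_eq x y hy]
      obtain ⟨c, hc, h⟩ := Pool.Agent.H26.CN.EPS.qd_lower (1 / (2 * y)) (x / y) 1
        (by positivity) one_pos
      have h3 := h v
      have h4 := Pool.Agent.H26.CN.EPS.norm_ge_one hv.2
      have : 0 < c * ‖v‖ ^ 2 := by positivity
      linarith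
    have h3 : (u : ℂ) * ((qz x y v / n : ℝ) : ℂ) = ((u * (qz x y v / n) : ℝ) : ℂ) := by
      push_cast; ring
    rw [h3, norm_mul, an_norm m x y v hy hv.2, one_mul]
    refine (hph _ (by positivity)).trans (le_of_eq ?_)
    unfold Pool.Agent.H26.CN.EPS.eq'
    rw [← qz_eq x y hy, Real.sqrt_one]
    have h4 : ((2 * π / 1 * qz x y v) ^ (2 : ℝ) : ℝ) = (2 * π / 1 * qz x y v) ^ 2 := by
      exact_mod_cast Real.rpow_natCast (2 * π / 1 * qz x y v) 2
    rw [h4]
    field_simp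
  · rw [if_neg hv, norm_zero]
    by_cases hv0 : v = 0
    · rw [if_pos hv0]; simp
    · rw [if_neg hv0]
      have : 0 ≤ Pool.Agent.H26.CN.EPS.eq' (1 / (2 * y)) (x / y) 1 v := by
        unfold Pool.Agent.H26.CN.EPS.eq'
        rw [← qz_eq x y hy]
        have : 0 ≤ qz x y v := by unfold qz; positivity
        positivity
      positivity

open Classical in
/-- the sum over the multiples of `k` -/
theorem sum_mult (hFLS : T_FLS) (m : ℤ) {n k h : ℕ} {L' : Pool.Agent.H89.FM.Lat} (x y u : ℝ)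
    (hn : 1 ≤ n) (hL' : L' ∈ Ls n) (hk : 1 ≤ k) (hh : 1 ≤ h) (hc : Nat.Coprime k n) :
    ∑' v : ℤ × ℤ, (if (k : ℤ) ∣ v.1 ∧ (k : ℤ) ∣ v.2 then psm m (n * (k * h)) L' x y u v else 0) =
      Psm m n L' x y (u * ((k : ℝ) / h : ℝ) : ℂ) := by
  have hk' : (k : ℤ) ≠ 0 := by exact_mod_cast (by omega : k ≠ 0)
  have hinj : Function.Injective (fun v : ℤ × ℤ => (k : ℤ) • v) := by
    intro v w hvw
    have h1 := congrArg Prod.fst hvw
    have h2 := congrArg Prod.snd hvw
    simp only [Prod.smul_fst, Prod.smul_snd, smul_eq_mul] at h1 h2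
    exact Prod.ext (mul_left_cancel₀ hk' h1) (mul_left_cancel₀ hk' h2)
  unfold Psm
  rw [← hinj.tsum_eq]
  · apply tsum_congr
    intro v
    have hd : (k : ℤ) ∣ ((k : ℤ) • v).1 ∧ (k : ℤ) ∣ ((k : ℤ) • v).2 := by
      simp only [Prod.smul_fst, Prod.smul_snd, smul_eq_mul]
      exact ⟨dvd_mul_right _ _, dvd_mul_right _ _⟩
    rw [if_pos hd]
    unfold psm
    have hiff : ((k : ℤ) • v ∈ L' ∧ (k : ℤ) • v ≠ 0) ↔ (v ∈ L' ∧ v ≠ 0) := by
      constructor
      · rintro ⟨h1, h2⟩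
        exact ⟨mem_of_mul hFLS hn hL' hc h1, fun h0 => h2 (by rw [h0, smul_zero])⟩
      · rintro ⟨h1, h2⟩
        refine ⟨L'.zsmul_mem h1 _, fun h0 => h2 (hinj ?_)⟩
        simp only [h0, smul_zero]
    by_cases hv : v ∈ L' ∧ v ≠ 0
    · rw [if_pos (hiff.2 hv), if_pos hv, qz_smul, an_smul _ _ _ hk']
      congr 2
      have h1 : (k : ℂ) ≠ 0 := by exact_mod_cast (by omega : k ≠ 0)
      have h2 : (h : ℂ) ≠ 0 := by exact_mod_cast (by omega : h ≠ 0)
      have h3 : (n : ℂ) ≠ 0 := by exact_mod_cast (by omega : n ≠ 0)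
      push_cast
      field_simp
    · rw [if_neg (fun h0 => hv (hiff.1 h0)), if_neg hv]
  · intro v hv
    by_contra hne
    apply hv
    have : ¬ ((k : ℤ) ∣ v.1 ∧ (k : ℤ) ∣ v.2) := by
      rintro ⟨⟨a, ha⟩, ⟨b, hb⟩⟩
      exact hne ⟨(a, b), Prod.ext ha.symm hb.symm⟩
    simp only [if_neg this]

open Classical in
/-- the relation for the functions `Psm` -/
theorem psm_rel (hFLS : T_FLS) (hCRT : T_CRT) (hCNL : T_CNL) (m : ℤ) (n g : ℕ)
    (L' : Pool.Agent.H89.FM.Lat) (x y u : ℝ)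
    (hsq : Squarefree (n * g)) (hL' : L' ∈ Ls n) (hy : 0 < y) (hu : 0 < u) :
    ∑ L ∈ (Ls (n * g)).filter (fun L => L ≤ L'), Psm m (n * g) L x y u =
      ∑ k ∈ g.divisors, (k : ℂ) * Psm m n L' x y (u * ((k : ℝ) / (g / k : ℕ) : ℝ) : ℂ) := by
  have hcop : Nat.Coprime n g := Nat.coprime_of_squarefree_mul hsq
  have hn : 1 ≤ n := Nat.one_le_iff_ne_zero.2 (fun h => by
    rw [h, zero_mul] at hsq; exact not_squarefree_zero hsq)
  have hg : 1 ≤ g := Nat.one_le_iff_ne_zero.2 (fun h => by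
    rw [h, mul_zero] at hsq; exact not_squarefree_zero hsq)
  have hng : 1 ≤ n * g := Nat.mul_pos hn hg
  have hsg : Squarefree g := hsq.of_mul_right
  rw [sum_lattices hFLS hCRT hsq hL']
  unfold Psm
  rw [← Summable.tsum_finsetSum (fun L _ => psm_summable m (n * g) _ x y u hng hy hu)]
  have hS : ∀ k ∈ g.divisors, Summable (fun v : ℤ × ℤ =>
      if (k : ℤ) ∣ v.1 ∧ (k : ℤ) ∣ v.2 then psm m (n * g) L' x y u v else 0) := by
    intro k _
    have h1 := (psm_summable m (n * g) L' x y u hng hy hu).norm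
    refine Summable.of_norm_bounded h1 fun v => ?_
    split_ifs
    · exact le_rfl
    · rw [norm_zero]; exact norm_nonneg _
  have hterm : ∀ v : ℤ × ℤ, ∑ L₂ ∈ Ls g, psm m (n * g) (L' ⊓ L₂) x y u v =
      ∑ k ∈ g.divisors, (k : ℂ) *
        (if (k : ℤ) ∣ v.1 ∧ (k : ℤ) ∣ v.2 then psm m (n * g) L' x y u v else 0) := by
    intro v
    have h1 : ∀ L₂ ∈ Ls g, psm m (n * g) (L' ⊓ L₂) x y u v =
        if v ∈ L₂ then psm m (n * g) L' x y u v else 0 := by
      intro L₂ _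
      unfold psm
      by_cases h2 : v ∈ L₂
      · rw [if_pos h2]
        by_cases h3 : v ∈ L' ∧ v ≠ 0
        · rw [if_pos h3, if_pos ⟨AddSubgroup.mem_inf.2 ⟨h3.1, h2⟩, h3.2⟩]
        · rw [if_neg h3, if_neg]
          rintro ⟨h4, h5⟩
          exact h3 ⟨(AddSubgroup.mem_inf.1 h4).1, h5⟩
      · rw [if_neg h2, if_neg]
        rintro ⟨h4, h5⟩
        exact h2 (AddSubgroup.mem_inf.1 h4).2
    rw [Finset.sum_congr rfl h1, ← Finset.sum_filter, Finset.sum_const, hCNL g v hsg,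
      nsmul_eq_mul]
    push_cast
    rw [Finset.sum_mul, Finset.sum_filter]
    apply Finset.sum_congr rfl
    intro k _
    split_ifs <;> simp
  rw [tsum_congr hterm, Summable.tsum_finsetSum (fun k hk => (hS k hk).mul_left _)]
  apply Finset.sum_congr rfl
  intro k hk
  have hk1 : 1 ≤ k := Nat.pos_of_mem_divisors hk
  have hkd : k ∣ g := Nat.dvd_of_mem_divisors hk
  have hgk : g = k * (g / k) := (Nat.mul_div_cancel' hkd).symm
  have hh : 1 ≤ g / k := Nat.div_pos (Nat.le_of_dvd hg hkd) hk1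
  have hc : Nat.Coprime k n := (Nat.Coprime.coprime_dvd_right hkd hcop).symm
  rw [tsum_mul_left]
  congr 1
  have := sum_mult hFLS m x y u hn hL' hk1 hh hc
  rw [← hgk] at this
  rw [this]
  rfl

theorem pf_HECm (hFLS : T_FLS) (hCRT : T_CRT) (hCNL : T_CNL) (hMEL : T_MELm) (_hPSB : T_PSBm) :
    T_HECm := by
  classical
  intro m n g L' x y s hsq hL' hy
  have hn : 1 ≤ n := Nat.one_le_iff_ne_zero.2 (fun h => by
    rw [h, zero_mul] at hsq; exact not_squarefree_zero hsq)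
  have hg : 1 ≤ g := Nat.one_le_iff_ne_zero.2 (fun h => by
    rw [h, mul_zero] at hsq; exact not_squarefree_zero hsq)
  have hng : 1 ≤ n * g := Nat.mul_pos hn hg
  have h1 : ∀ L ∈ (Ls (n * g)).filter (fun L => L ≤ L'),
      Em m s (n * g) L x y = ∫ u in Ioi (0 : ℝ), Psm m (n * g) L x y u * (u : ℂ) ^ (s - 1) :=
    fun L hL => (hMEL m (n * g) L x y s hng (Finset.mem_filter.1 hL).1 hy).2
  rw [Finset.sum_congr rfl h1, ← integral_finsetSum]
  swap
  · intro L hL
    exact (hMEL m (n * g) L x y s hng (Finset.mem_filter.1 hL).1 hy).1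
  obtain ⟨hI, hE⟩ := hMEL m n L' x y s hn hL' hy
  -- the scaled integrals
  have hsc : ∀ b : ℝ, 0 < b →
      IntegrableOn (fun u : ℝ => Psm m n L' x y (u * (b : ℝ) : ℂ) * (u : ℂ) ^ (s - 1)) (Ioi 0) ∧
      ∫ u in Ioi (0 : ℝ), Psm m n L' x y (u * (b : ℝ) : ℂ) * (u : ℂ) ^ (s - 1) =
        (b : ℂ) ^ (-s) * Em m s n L' x y := by
    intro b hb
    have hbc : (b : ℂ) ≠ 0 := Complex.ofReal_ne_zero.2 hb.ne'
    obtain ⟨F, hF⟩ : ∃ F : ℝ → ℂ, F = fun u : ℝ => Psm m n L' x y u * (u : ℂ) ^ (s - 1) :=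
      ⟨_, rfl⟩
    have hcomp : ∀ u ∈ Ioi (0 : ℝ), Psm m n L' x y (u * (b : ℝ) : ℂ) * (u : ℂ) ^ (s - 1) =
        (b : ℂ) ^ (-(s - 1)) * F (b * u) := by
      intro u hu
      have hu0 : (0 : ℝ) < u := hu
      rw [hF]
      simp only
      have e1 : ((b * u : ℝ) : ℂ) = (u : ℂ) * (b : ℂ) := by push_cast; ring
      have e2 : ((b * u : ℝ) : ℂ) ^ (s - 1) = (b : ℂ) ^ (s - 1) * (u : ℂ) ^ (s - 1) := by
        rw [Complex.ofReal_mul, Complex.mul_cpow_ofReal_nonneg hb.le hu0.le]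
      rw [e2, e1, Complex.cpow_neg]
      have e3 : (b : ℂ) ^ (s - 1) ≠ 0 := by
        rw [Complex.cpow_def_of_ne_zero hbc]
        exact Complex.exp_ne_zero _
      field_simp
    have hI' : IntegrableOn F (Ioi 0) := by rw [hF]; exact hI
    have hI2 : IntegrableOn (fun u => F (b * u)) (Ioi 0) := by
      rw [integrableOn_Ioi_comp_mul_left_iff F 0 hb, mul_zero]
      exact hI'
    constructor
    · have hI3 : IntegrableOn (fun u => (b : ℂ) ^ (-(s - 1)) * F (b * u)) (Ioi 0) :=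
        Integrable.const_mul hI2 _
      exact hI3.congr_fun (fun u hu => (hcomp u hu).symm) measurableSet_Ioi
    · rw [setIntegral_congr_fun measurableSet_Ioi hcomp, integral_const_mul,
        integral_comp_mul_left_Ioi F 0 hb, mul_zero]
      have h3 : ∫ u in Ioi (0 : ℝ), F u = Em m s n L' x y := by rw [hE, hF]
      rw [h3, Complex.real_smul]
      have e4 : (b : ℂ) ^ (-s) = (b : ℂ) ^ (-(s - 1)) * (b : ℂ)⁻¹ := by
        rw [← Complex.cpow_neg_one, ← Complex.cpow_add _ _ hbc]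
        congr 1
        ring
      rw [e4]
      push_cast
      ring
  have h2 : ∀ u ∈ Ioi (0 : ℝ), ∑ L ∈ (Ls (n * g)).filter (fun L => L ≤ L'),
      Psm m (n * g) L x y u * (u : ℂ) ^ (s - 1) =
      ∑ k ∈ g.divisors, (k : ℂ) * (Psm m n L' x y (u * ((k : ℝ) / (g / k : ℕ) : ℝ) : ℂ) *
        (u : ℂ) ^ (s - 1)) := by
    intro u hu
    rw [← Finset.sum_mul, psm_rel hFLS hCRT hCNL m n g L' x y u hsq hL' hy hu, Finset.sum_mul]
    apply Finset.sum_congr rfl
    intro k _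
    ring
  have hb : ∀ k ∈ g.divisors, (0 : ℝ) < (k : ℝ) / (g / k : ℕ) := by
    intro k hk
    have hk1 : 0 < k := Nat.pos_of_mem_divisors hk
    have hh : 0 < g / k := Nat.div_pos (Nat.le_of_dvd hg (Nat.dvd_of_mem_divisors hk)) hk1
    positivity
  rw [setIntegral_congr_fun measurableSet_Ioi h2, integral_finsetSum, Finset.sum_mul]
  · apply Finset.sum_congr rfl
    intro k hk
    rw [integral_const_mul, (hsc _ (hb k hk)).2]
    have hk1 : 0 < k := Nat.pos_of_mem_divisors hk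
    have hh : 0 < g / k := Nat.div_pos (Nat.le_of_dvd hg (Nat.dvd_of_mem_divisors hk)) hk1
    have hkc : (k : ℂ) ≠ 0 := by exact_mod_cast hk1.ne'
    have e1 : (((k : ℝ) / (g / k : ℕ) : ℝ) : ℂ) ^ (-s) =
        (k : ℂ) ^ (-s) * ((g / k : ℕ) : ℂ) ^ s := by
      rw [div_eq_mul_inv, Complex.ofReal_mul, Complex.mul_cpow_ofReal_nonneg (by positivity)
        (by positivity), Complex.ofReal_inv, Complex.inv_cpow _ _ ?_, ← Complex.cpow_neg, neg_neg]
      · push_cast
        rfl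
      · rw [Complex.ofReal_natCast, Complex.natCast_arg]
        exact Real.pi_pos.ne
    rw [e1, show (1 : ℂ) - s = 1 + (-s) by ring, Complex.cpow_add _ _ hkc, Complex.cpow_one]
    ring
  · intro k hk
    exact (hsc _ (hb k hk)).1.const_mul _

end Pool.Agent.H59.FC
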