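import Pool.Agent.H9.FC.TB

/-! Module OMG: a suitable well-order exists. -/

namespace Pool.Agent.H59.FC

open Set Pool.Agent.H9.FC Cardinal Ordinal

theorem pf_OMG : T_OMG := by
  let c : Cardinal.{0} := Order.succ Cardinal.continuum
  have hc0 : Cardinal.aleph0 ≤ c := Cardinal.aleph0_le_continuum.trans (Order.le_succ _)
  have hreg : c.IsRegular := Cardinal.isRegular_succ Cardinal.aleph0_le_continuum
  let o : Ordinal.{0} := c.ord
  refine ⟨WithTop o.ToType, inferInstance, inferInstance, inferInstance, ?_⟩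
  intro I f hI hf
  have hg : ∀ i, ∃ g : o.ToType, f i = (g : WithTop o.ToType) := by
    intro i
    obtain ⟨g, hg⟩ := WithTop.ne_top_iff_exists.1 (hf i).ne
    exact ⟨g, hg.symm⟩
  choose g hg using hg
  have hsup : (⨆ i, (Ordinal.ToType.mk.symm (g i)).1) < o := by
    refine Ordinal.iSup_lt_of_lt_cof ?_ (fun i => (Ordinal.ToType.mk.symm (g i)).2)
    rw [hreg.cof_ord]
    exact lt_of_le_of_lt hI (Order.lt_succ _)
  have hlim : Order.IsSuccLimit o := Cardinal.isSuccLimit_ord hc0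
  have hsup1 : Order.succ (⨆ i, (Ordinal.ToType.mk.symm (g i)).1) < o := hlim.succ_lt hsup
  refine ⟨((Ordinal.ToType.mk ⟨_, hsup1⟩ : o.ToType) : WithTop o.ToType), WithTop.coe_lt_top _, ?_⟩
  intro i
  rw [hg i, WithTop.coe_lt_coe]
  have h1 : (Ordinal.ToType.mk.symm (g i)) < (⟨_, hsup1⟩ : Iio o) := by
    show (Ordinal.ToType.mk.symm (g i)).1 < Order.succ (⨆ i, (Ordinal.ToType.mk.symm (g i)).1)
    exact lt_of_le_of_lt (Ordinal.le_iSup (fun i => (Ordinal.ToType.mk.symm (g i)).1) i)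
      (Order.lt_succ _)
  have h2 := (Ordinal.ToType.mk (o := o)).lt_iff_lt.2 h1
  simpa using h2

end Pool.Agent.H59.FC
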